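import Pool.Agent.helper82.CH.SpecA

set_option autoImplicit false

open NumberField Complex Pool.Agent.UN

namespace Pool.Agent.CH

theorem XPE_cop {R : Type} [CommRing R] (P J : Ideal R) (hP : P.IsMaximal) (h : ¬ J ≤ P) : IsCoprime P J := by
  rw [Ideal.isCoprime_iff_sup_eq]
  exact hP.out.2 _ (left_lt_sup.mpr h)

theorem XPE : XPE_stmt := by
  intro F _ _ q f P hq hf hP hPp hPf
  have hPm : P.IsMaximal := hPp.isMaximal hP
  -- the part of `q` prime to `P`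
  obtain ⟨q', hq', hPq'⟩ : ∃ q' : Ideal (𝓞 F), q = P ^ (multiplicity P q) * q' ∧ ¬ P ∣ q' := by
    have hfm : FiniteMultiplicity P q := FiniteMultiplicity.of_not_isUnit (by
      intro hu
      rw [Ideal.isUnit_iff] at hu
      exact hPp.ne_top hu) hq
    exact hfm.exists_eq_pow_mul_and_not_dvd
  have c1 : IsCoprime P f := Ideal.isCoprime_iff_sup_eq.mpr hPf
  have c2 : IsCoprime P q' := XPE_cop P q' hPm (fun h => hPq' (Ideal.dvd_iff_le.mpr h))
  have c3 : IsCoprime (P ^ 2) (f * q') := (c1.mul_right c2).pow_left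
  obtain ⟨π, hπ1, hπ2⟩ := Ideal.exists_mem_pow_notMem_pow_succ P hP hPp.ne_top 1
  rw [pow_one] at hπ1
  obtain ⟨u, hu, v, hv, huv⟩ : ∃ u ∈ P ^ 2, ∃ v ∈ f * q', u + v = 1 := by
    rw [Ideal.isCoprime_iff_exists] at c3
    exact c3
  have hq'0 : q' ≠ ⊥ := by
    intro h
    rw [h] at hPq'
    exact hPq' (dvd_zero P)
  obtain ⟨N, hN0, hNmem⟩ : ∃ N : ℕ, N ≠ 0 ∧ (N : 𝓞 F) ∈ P ^ 2 * (f * q') := by
    refine ⟨Ideal.absNorm (P ^ 2 * (f * q')), ?_, Ideal.absNorm_mem _⟩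
    rw [Ne, Ideal.absNorm_eq_zero_iff]
    exact mul_ne_zero (pow_ne_zero 2 hP) (mul_ne_zero hf hq'0)
  have hNP : (N : 𝓞 F) ∈ P ^ 2 := by
    have h : P ^ 2 * (f * q') ≤ P ^ 2 := Ideal.mul_le_left
    exact h hNmem
  have hNf : (N : 𝓞 F) ∈ f * q' := by
    have h : P ^ 2 * (f * q') ≤ f * q' := Ideal.mul_le_right
    exact h hNmem
  have hfq : f * q' ≤ f := Ideal.mul_le_left
  have hqq : f * q' ≤ q' := Ideal.mul_le_right
  obtain ⟨t, ht⟩ := exists_nat_gt (∑ φ : F →+* ℝ, |φ ((u + v * π : 𝓞 F) : F)|)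
  have hx1 : (u + v * π + (t : 𝓞 F) * (N : 𝓞 F)) - π ∈ P ^ 2 := by
    have e1 : (u + v * π + (t : 𝓞 F) * (N : 𝓞 F)) - π = u - u * π + (t : 𝓞 F) * (N : 𝓞 F) := by
      have : v = 1 - u := by rw [← huv]; ring
      rw [this]
      ring
    rw [e1]
    exact (P ^ 2).add_mem ((P ^ 2).sub_mem hu ((P ^ 2).mul_mem_right _ hu)) ((P ^ 2).mul_mem_left _ hNP)
  have hx2 : (u + v * π + (t : 𝓞 F) * (N : 𝓞 F)) - 1 ∈ f * q' := by
    have e1 : (u + v * π + (t : 𝓞 F) * (N : 𝓞 F)) - 1 = v * π - v + (t : 𝓞 F) * (N : 𝓞 F) := by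
      rw [← huv]
      ring
    rw [e1]
    exact (f * q').add_mem ((f * q').sub_mem ((f * q').mul_mem_right _ hv) hv) ((f * q').mul_mem_left _ hNf)
  set x : 𝓞 F := u + v * π + (t : 𝓞 F) * (N : 𝓞 F) with hx
  have hxP2 : x ∉ P ^ 2 := by
    intro h
    apply hπ2
    have := (P ^ 2).sub_mem h hx1
    rwa [sub_sub_cancel] at this
  have hxP : x ∈ P := by
    have h1 : x - π ∈ P := Ideal.pow_le_self (by norm_num) hx1
    have := P.add_mem h1 hπ1
    rwa [sub_add_cancel] at this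
  obtain ⟨b, hb⟩ : P ∣ Ideal.span {x} := by
    rw [Ideal.dvd_iff_le, Ideal.span_singleton_le_iff_mem]
    exact hxP
  have hxb : x ∈ b := by
    have h1 : x ∈ P * b := by
      rw [← hb]
      exact Ideal.mem_span_singleton_self x
    have h2 : P * b ≤ b := Ideal.mul_le_right
    exact h2 h1
  refine ⟨x, b, ?_, hb, ?_, hfq hx2, ?_⟩
  · intro h
    apply hxP2
    rw [h]
    exact (P ^ 2).zero_mem
  · rw [← Ideal.isCoprime_iff_sup_eq, hq']
    have k1 : IsCoprime b P := by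
      apply IsCoprime.symm
      apply XPE_cop P b hPm
      intro h
      apply hxP2
      have h2 : Ideal.span {x} ≤ P ^ 2 := by
        rw [hb, pow_two]
        exact Ideal.mul_mono_right h
      exact h2 (Ideal.mem_span_singleton_self x)
    have k2 : IsCoprime b q' := by
      rw [Ideal.isCoprime_iff_sup_eq, Ideal.eq_top_iff_one]
      have h3 : x - (x - 1) ∈ b ⊔ q' := (b ⊔ q').sub_mem (Ideal.mem_sup_left hxb) (Ideal.mem_sup_right (hqq hx2))
      rwa [sub_sub_cancel] at h3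
    exact (k1.pow_right).mul_right k2
  · intro φ
    have e1 : φ ((x : 𝓞 F) : F) = φ ((u + v * π : 𝓞 F) : F) + (t : ℝ) * (N : ℝ) := by
      rw [hx]
      push_cast
      simp only [map_add, map_mul, map_natCast]
    rw [e1]
    have e2 : |φ ((u + v * π : 𝓞 F) : F)| ≤ ∑ φ : F →+* ℝ, |φ ((u + v * π : 𝓞 F) : F)| :=
      Finset.single_le_sum (f := fun φ : F →+* ℝ => |φ ((u + v * π : 𝓞 F) : F)|) (fun ψ _ => abs_nonneg _) (Finset.mem_univ φ)
    have e3 := neg_abs_le (φ ((u + v * π : 𝓞 F) : F))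
    have e4 : (1 : ℝ) ≤ N := by
      have : 1 ≤ N := Nat.one_le_iff_ne_zero.mpr hN0
      exact_mod_cast this
    have e5 : (t : ℝ) * 1 ≤ (t : ℝ) * N := mul_le_mul_of_nonneg_left e4 (Nat.cast_nonneg t)
    linarith

end Pool.Agent.CH
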